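import Pool.Agent.H633R2.FptPad
import Pool.Agent.H257R2.LJW.Clique
import Pool.Agent.H671R2.PolyAuto

/-!
# The colour-reversal number: definitions and the lower bound
-/

namespace Pool.Agent.V11225.CR

open Finset

/-- The local complement `G_a`: the adjacency of every pair of different neighbours of `a` is
toggled. -/
def localCompl {V : Type} (G : SimpleGraph V) (a : V) : SimpleGraph V where
  Adj x y := x ≠ y ∧ Xor' (G.Adj x y) (G.Adj a x ∧ G.Adj a y)
  symm := ⟨fun x y h => ⟨h.1.symm, by
    have h2 := h.2
    rw [G.adj_comm x y, and_comm] at h2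
    exact h2⟩⟩
  loopless := ⟨fun _ h => h.1 rfl⟩

open Classical in
/-- The local inversion at `a` of a graph with a bicoloration: the local complement at `a`, with the
colours of the neighbours of `a` reversed. -/
noncomputable def invert {V : Type} (B : SimpleGraph V × (V → ℤˣ)) (a : V) :
    SimpleGraph V × (V → ℤˣ) :=
  (localCompl B.1 a, fun x => if B.1.Adj a x then - B.2 x else B.2 x)

/-- Local inversions at the vertices of a string, in this order. -/
noncomputable def run {V : Type} (B : SimpleGraph V × (V → ℤˣ)) (w : List V) :
    SimpleGraph V × (V → ℤˣ) := w.foldl invert B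

/-- For every bicoloration some string of length at most `l` reverses all colours and restores the
graph. -/
def Reverses {V : Type} (G : SimpleGraph V) (l : ℕ) : Prop :=
  ∀ β : V → ℤˣ, ∃ w : List V, w.length ≤ l ∧ run (G, β) w = (G, fun x => - β x)

/-- The colour-reversal number (`⊤` if there is no string). -/
noncomputable def cr {V : Type} (G : SimpleGraph V) : ℕ∞ :=
  ⨅ (l : ℕ) (_ : Reverses G l), (l : ℕ∞)

theorem Reverses.mono {V : Type} {G : SimpleGraph V} {l l' : ℕ} (h : Reverses G l) (hl : l ≤ l') :
    Reverses G l' := fun β => by
  obtain ⟨w, h1, h2⟩ := h β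
  exact ⟨w, h1.trans hl, h2⟩

theorem cr_le_iff {V : Type} (G : SimpleGraph V) (k : ℕ) : cr G ≤ k ↔ Reverses G k := by
  constructor
  · intro h
    by_contra hn
    have h2 : ((k + 1 : ℕ) : ℕ∞) ≤ cr G := by
      unfold cr
      refine le_iInf₂ fun l hl => ?_
      have : k < l := by
        by_contra hlt
        exact hn (hl.mono (not_lt.1 hlt))
      exact_mod_cast this
    have h3 := h2.trans h
    have : k + 1 ≤ k := by exact_mod_cast h3
    omega
  · intro h
    exact iInf₂_le k h

section lower

variable {V : Type}

open Classical in
/-- indicator of the adjacency -/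
noncomputable def chi (G : SimpleGraph V) (x y : V) : ZMod 2 := if G.Adj x y then 1 else 0

theorem chi_localCompl (G : SimpleGraph V) (a x y : V) (h : x ≠ y) :
    chi (localCompl G a) x y = chi G x y + chi G a x * chi G a y := by
  unfold chi localCompl Xor'
  have e : (1 : ZMod 2) + 1 = 0 := by decide
  by_cases h1 : G.Adj x y <;> by_cases h2 : G.Adj a x <;> by_cases h3 : G.Adj a y <;>
    simp [h, h1, h2, h3, e]

/-- the steps at which a vertex is a neighbour of the active vertex -/
noncomputable def vec : (w : List V) → SimpleGraph V → V → Fin w.length → ZMod 2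
  | [], _, _ => Fin.elim0
  | a :: w, G, x => Fin.cons (chi G a x) (vec w (localCompl G a) x)

/-- signs -/
def sgn (z : ZMod 2) : ℤˣ := if z = 0 then 1 else -1

theorem sgn_add : ∀ u v : ZMod 2, sgn (u + v) = sgn u * sgn v := by decide

theorem run_cons (B : SimpleGraph V × (V → ℤˣ)) (a : V) (w : List V) :
    run B (a :: w) = run (invert B a) w := rfl

theorem chi_run (w : List V) (G : SimpleGraph V) (β : V → ℤˣ) (x y : V) (h : x ≠ y) :
    chi (run (G, β) w).1 x y = chi G x y + ∑ i, vec w G x i * vec w G y i := by
  induction w generalizing G β with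
  | nil => simp [run]
  | cons a w ih =>
    rw [run_cons]
    change chi (run (localCompl G a, _) w).1 x y = _
    rw [ih, chi_localCompl G a x y h]
    change _ = chi G x y + ∑ i : Fin (w.length + 1), _
    rw [Fin.sum_univ_succ]
    simp only [vec, Fin.cons_zero, Fin.cons_succ]
    ring

theorem col_run (w : List V) (G : SimpleGraph V) (β : V → ℤˣ) (x : V) :
    (run (G, β) w).2 x = β x * sgn (∑ i, vec w G x i * vec w G x i) := by
  induction w generalizing G β with
  | nil => simp [run, sgn]
  | cons a w ih =>
    rw [run_cons]
    change (run (localCompl G a, fun x => _) w).2 x = _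
    rw [ih]
    change _ = β x * sgn (∑ i : Fin (w.length + 1), _)
    rw [Fin.sum_univ_succ]
    simp only [vec, Fin.cons_zero, Fin.cons_succ]
    rw [sgn_add, ← mul_assoc]
    congr 1
    unfold chi
    by_cases h : G.Adj a x
    · have e : sgn (1 * 1) = -1 := by decide
      simp only [if_pos h, e]
      simp
    · have e : sgn (0 * 0) = 1 := by decide
      simp only [if_neg h, e]
      simp

/-- **A string which reverses all the colours has at least as many letters as there are vertices.**
-/
theorem card_le_length [Fintype V] {G : SimpleGraph V} {w : List V} {β : V → ℤˣ}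
    (h : run (G, β) w = (G, fun x => - β x)) : Fintype.card V ≤ w.length := by
  classical
  let P : Matrix V (Fin w.length) (ZMod 2) := Matrix.of fun x i => vec w G x i
  have hP : P * P.transpose = 1 := by
    ext x y
    rw [Matrix.mul_apply]
    simp only [Matrix.transpose_apply, P, Matrix.of_apply]
    by_cases hxy : x = y
    · subst hxy
      rw [Matrix.one_apply_eq]
      have h1 := col_run w G β x
      rw [h] at h1
      simp only at h1
      have h2 : sgn (∑ i, vec w G x i * vec w G x i) = -1 := by
        have h3 : β x * (-1) = β x * sgn (∑ i, vec w G x i * vec w G x i) := by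
          rw [← h1]
          simp
        exact (mul_left_cancel h3).symm
      have h4 : ∀ z : ZMod 2, sgn z = -1 → z = 1 := by decide
      exact h4 _ h2
    · rw [Matrix.one_apply_ne hxy]
      have h1 := chi_run w G β x y hxy
      rw [h] at h1
      simpa using h1
  have h1 : (P * P.transpose).rank ≤ P.rank := Matrix.rank_mul_le_left P P.transpose
  rw [hP, Matrix.rank_one] at h1
  have h2 := P.rank_le_card_width
  rw [Fintype.card_fin] at h2
  exact h1.trans h2

/-- the number of vertices is at most the colour-reversal number -/
theorem card_le_of_reverses [Fintype V] {G : SimpleGraph V} {l : ℕ} (h : Reverses G l) :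
    Fintype.card V ≤ l := by
  obtain ⟨w, h1, h2⟩ := h (fun _ => 1)
  exact (card_le_length h2).trans h1

theorem card_le_cr [Fintype V] (G : SimpleGraph V) : (Fintype.card V : ℕ∞) ≤ cr G := by
  unfold cr
  refine le_iInf₂ fun l hl => ?_
  exact_mod_cast card_le_of_reverses hl

end lower

end Pool.Agent.V11225.CR
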