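import Pool.Agent.V11225.CR.Defs

/-!
# The colour-reversal number is fixed-parameter tractable
-/

namespace Pool.Agent.V11225.CR

open Finset Pool.Agent.NPC Pool.Agent.NPC.H633 Pool.Agent.H633R2

/-- adjacency -/
def aM (M : List (List Bool)) (i j : ℕ) : Bool := decide (i ≠ j) && (entry M i j || entry M j i)

/-- a matrix -/
def mk (n : ℕ) (f : ℕ → ℕ → Bool) : List (List Bool) :=
  (List.range n).map fun i => (List.range n).map fun j => f i j

theorem entry_mk {n : ℕ} (f : ℕ → ℕ → Bool) {i j : ℕ} (hi : i < n) (hj : j < n) :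
    entry (mk n f) i j = f i j := by
  unfold entry mk
  simp [List.getD_eq_getElem?_getD, hi, hj]

/-- the new matrix -/
def newA (n : ℕ) (A : List (List Bool)) (a : ℕ) : List (List Bool) :=
  mk n fun i j => (entry A i j) ^^ (decide (i ≠ j) && (entry A a i && entry A a j))

/-- the new flips -/
def newF (n : ℕ) (A : List (List Bool)) (F : List Bool) (a : ℕ) : List Bool :=
  (List.range n).map fun i => (F.getD i false) ^^ (entry A a i)

/-- one step -/
def stp (n : ℕ) (s : ℕ × List (List Bool) × List Bool) : ℕ × List (List Bool) × List Bool :=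
  (s.1 / (n + 1), if s.1 % (n + 1) < n then
    (newA n s.2.1 (s.1 % (n + 1)), newF n s.2.1 s.2.2 (s.1 % (n + 1))) else s.2)

/-- the matrix `A` represents the graph `G` -/
def Rep {n : ℕ} (A : List (List Bool)) (G : SimpleGraph (Fin n)) : Prop :=
  ∀ i j : Fin n, entry A i j = true ↔ G.Adj i j

/-- the list `F` represents the function `f` -/
def RepF {n : ℕ} (F : List Bool) (f : Fin n → Bool) : Prop :=
  ∀ i : Fin n, F.getD i false = f i

/-- the colours after the flips `f` -/
def col {n : ℕ} (β : Fin n → ℤˣ) (f : Fin n → Bool) : Fin n → ℤˣ :=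
  fun x => if f x = true then - β x else β x

theorem rep_step {n : ℕ} {A : List (List Bool)} {G : SimpleGraph (Fin n)} (h : Rep A G)
    (a : Fin n) : Rep (newA n A a) (localCompl G a) := by
  intro i j
  unfold newA
  rw [entry_mk _ i.2 j.2]
  have h1 := h i j
  have h2 := h a i
  have h3 := h a j
  unfold localCompl Xor'
  simp only
  rw [← h1, ← h2, ← h3]
  have h4 : (i : ℕ) ≠ (j : ℕ) ↔ i ≠ j := Fin.val_injective.ne_iff
  by_cases hij : i = j
  · have h5 : entry A i j = false := by
      rw [Bool.eq_false_iff]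
      intro h6
      exact (h1.1 h6).ne hij
    simp [hij] at h5 ⊢
    exact h5
  · have h6 := h4.2 hij
    cases entry A i j <;> cases entry A a i <;> cases entry A a j <;> simp [hij, h6]

theorem repF_step {n : ℕ} {A : List (List Bool)} {F : List Bool} {G : SimpleGraph (Fin n)}
    {f : Fin n → Bool} (h : Rep A G) (hF : RepF F f) (a : Fin n) :
    ∃ f' : Fin n → Bool, RepF (newF n A F a) f' ∧
      ∀ β, invert (G, col β f) a = (localCompl G a, col β f') := by
  classical
  refine ⟨fun i => (f i) ^^ (entry A a i), ?_, ?_⟩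
  · intro i
    unfold newF
    have := hF i
    rw [List.getD_eq_getElem?_getD, List.getElem?_map, List.getElem?_range i.2, Option.map_some,
      Option.getD_some, this]
  · intro β
    unfold invert
    refine Prod.ext rfl ?_
    funext x
    have h1 := h a x
    simp only [col]
    by_cases h2 : G.Adj a x
    · have h3 := h1.2 h2
      by_cases h4 : f x = true <;> simp [h2, h3, h4]
    · have h3 : entry A a x = false := by
        rw [Bool.eq_false_iff]
        intro h6
        exact h2 (h1.1 h6)
      by_cases h4 : f x = true <;> simp [h2, h3, h4]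

/-- the word of a code -/
def word (n : ℕ) : ℕ → ℕ → List (Fin n)
  | 0, _ => []
  | k + 1, c => if h : c % (n + 1) < n then ⟨c % (n + 1), h⟩ :: word n k (c / (n + 1))
      else word n k (c / (n + 1))

theorem word_length (n : ℕ) : ∀ k c, (word n k c).length ≤ k
  | 0, _ => le_rfl
  | k + 1, c => by
    unfold word
    have := word_length n k (c / (n + 1))
    split_ifs
    · simpa using this
    · omega

theorem word_surj (n : ℕ) : ∀ (k : ℕ) (w : List (Fin n)), w.length ≤ k →
    ∃ c < (n + 1) ^ k, word n k c = w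
  | 0, w, h => ⟨0, by simp, by
      have : w = [] := List.length_eq_zero_iff.1 (by omega)
      rw [this]
      rfl⟩
  | k + 1, [], _ => by
    obtain ⟨c, hc, hw⟩ := word_surj n k [] (by simp)
    refine ⟨n + (n + 1) * c, ?_, ?_⟩
    · rw [pow_succ]
      nlinarith
    · have h1 : (n + (n + 1) * c) % (n + 1) = n := by
        rw [Nat.add_mul_mod_self_left, Nat.mod_eq_of_lt (by omega)]
      have h2 : (n + (n + 1) * c) / (n + 1) = c := by
        rw [Nat.add_mul_div_left _ _ (by omega), Nat.div_eq_of_lt (by omega), Nat.zero_add]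
      unfold word
      rw [dif_neg (by omega), h2, hw]
  | k + 1, a :: w, h => by
    obtain ⟨c, hc, hw⟩ := word_surj n k w (by simpa using h)
    have ha := a.2
    refine ⟨a + (n + 1) * c, ?_, ?_⟩
    · rw [pow_succ]
      nlinarith
    · have h1 : ((a : ℕ) + (n + 1) * c) % (n + 1) = a := by
        rw [Nat.add_mul_mod_self_left, Nat.mod_eq_of_lt (by omega)]
      have h2 : ((a : ℕ) + (n + 1) * c) / (n + 1) = c := by
        rw [Nat.add_mul_div_left _ _ (by omega), Nat.div_eq_of_lt (by omega), Nat.zero_add]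
      unfold word
      rw [dif_pos (by omega), h2, hw]
      congr 1
      exact Fin.ext h1

theorem sim {n : ℕ} : ∀ (k c : ℕ) (A : List (List Bool)) (F : List Bool)
    (G : SimpleGraph (Fin n)) (f : Fin n → Bool), Rep A G → RepF F f →
    ∃ (G' : SimpleGraph (Fin n)) (f' : Fin n → Bool),
      Rep ((stp n)^[k] (c, A, F)).2.1 G' ∧ RepF ((stp n)^[k] (c, A, F)).2.2 f' ∧
      ∀ β, run (G, col β f) (word n k c) = (G', col β f')
  | 0, _, _, _, G, f, hA, hF => ⟨G, f, hA, hF, fun _ => rfl⟩
  | k + 1, c, A, F, G, f, hA, hF => by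
    rw [Function.iterate_succ_apply]
    unfold word
    by_cases h : c % (n + 1) < n
    · have e : stp n (c, A, F) = (c / (n + 1), newA n A (c % (n + 1)),
          newF n A F (c % (n + 1))) := by
        unfold stp
        rw [if_pos h]
      rw [e, dif_pos h]
      obtain ⟨f1, hf1, hb⟩ := repF_step hA hF ⟨c % (n + 1), h⟩
      obtain ⟨G', f', h1, h2, h3⟩ := sim k (c / (n + 1)) _ _ _ _ (rep_step hA ⟨c % (n + 1), h⟩) hf1
      refine ⟨G', f', h1, h2, fun β => ?_⟩
      rw [run_cons, hb β]
      exact h3 β
    · have e : stp n (c, A, F) = (c / (n + 1), A, F) := by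
        unfold stp
        rw [if_neg h]
      rw [e, dif_neg h]
      exact sim k (c / (n + 1)) A F G f hA hF

/-- the initial state -/
def ini (M : List (List Bool)) (c : ℕ) : ℕ × List (List Bool) × List Bool :=
  (c, mk M.length (aM M), (List.range M.length).map fun _ => false)

/-- the final test -/
def fin (M : List (List Bool)) (s : ℕ × List (List Bool) × List Bool) : Bool :=
  (List.range M.length).all fun i => (s.2.2.getD i false) &&
    (List.range M.length).all fun j => decide (entry s.2.1 i j = aM M i j)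

theorem aM_iff (M : List (List Bool)) (i j : Fin M.length) :
    aM M i j = true ↔ (graphOf M).Adj i j := by
  unfold aM graphOf
  simp only [Bool.and_eq_true, decide_eq_true_eq, Bool.or_eq_true, ne_eq, Fin.val_inj]

theorem rep_ini (M : List (List Bool)) : Rep (mk M.length (aM M)) (graphOf M) := by
  intro i j
  rw [entry_mk _ i.2 j.2]
  exact aM_iff M i j

theorem repF_ini (M : List (List Bool)) :
    RepF (n := M.length) ((List.range M.length).map fun _ => false) (fun _ => false) := by
  intro i
  rw [List.getD_eq_getElem?_getD, List.getElem?_map, List.getElem?_range i.2, Option.map_some,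
    Option.getD_some]

theorem col_false {n : ℕ} (β : Fin n → ℤˣ) : col β (fun _ => false) = β := by
  funext x
  simp [col]

theorem fin_iff (M : List (List Bool)) (k : ℕ) : Reverses (graphOf M) k ↔
    ∃ c < (M.length + 1) ^ k, fin M ((stp M.length)^[k] (ini M c)) = true := by
  constructor
  · intro h
    obtain ⟨w, h1, h2⟩ := h (fun _ => 1)
    obtain ⟨c, hc, hw⟩ := word_surj M.length k w h1
    refine ⟨c, hc, ?_⟩
    obtain ⟨G', f', h3, h4, h5⟩ := sim k c _ _ _ _ (rep_ini M) (repF_ini M)
    have h6 := h5 (fun _ => 1)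
    rw [hw, col_false, h2] at h6
    have h7 : graphOf M = G' := congrArg Prod.fst h6
    have h8 : (fun _ => -1 : Fin M.length → ℤˣ) = col (fun _ => 1) f' := congrArg Prod.snd h6
    unfold fin
    simp only [List.all_eq_true, List.mem_range, Bool.and_eq_true, decide_eq_true_eq]
    intro i hi
    refine ⟨?_, ?_⟩
    · have h9 := congrFun h8 ⟨i, hi⟩
      have h10 := h4 ⟨i, hi⟩
      change ((stp M.length)^[k] (ini M c)).2.2.getD i false = _ at h10
      rw [h10]
      unfold col at h9
      by_contra hf
      rw [if_neg hf] at h9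
      have h11 : (-1 : ℤˣ) = 1 := h9
      exact absurd h11 (by decide)
    · intro j hj
      have h9 := h3 ⟨i, hi⟩ ⟨j, hj⟩
      have h10 := aM_iff M ⟨i, hi⟩ ⟨j, hj⟩
      rw [← h7, ← h10] at h9
      exact Bool.eq_iff_iff.2 h9
  · rintro ⟨c, _, hf⟩ β
    obtain ⟨G', f', h3, h4, h5⟩ := sim k c _ _ _ _ (rep_ini M) (repF_ini M)
    have h6 := h5 β
    rw [col_false] at h6
    refine ⟨word M.length k c, word_length _ _ _, ?_⟩
    rw [h6]
    unfold fin at hf
    simp only [List.all_eq_true, List.mem_range, Bool.and_eq_true, decide_eq_true_eq] at hf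
    refine Prod.ext ?_ ?_
    · ext i j
      have h9 := h3 i j
      have h10 := aM_iff M i j
      rw [← h9, ← h10]
      have h11 := (hf i i.2).2 j j.2
      change entry ((stp M.length)^[k] (ini M c)).2.1 i j = true ↔ _
      rw [h11]
    · funext i
      have h10 := h4 i
      have h11 := (hf i i.2).1
      change ((stp M.length)^[k] (ini M c)).2.2.getD i false = _ at h10
      rw [h11] at h10
      simp only [col]
      rw [if_pos h10.symm]

/-- the algorithm, with the help of a long list -/
def alg (y : (List (List Bool) × ℕ) × List Unit) : Bool :=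
  if y.1.1.length ≤ y.1.2 then (List.range y.2.length).any fun c =>
    fin y.1.1 ((stp y.1.1.length)^[(List.range (min y.1.2 y.2.length)).length] (ini y.1.1 c))
  else false

theorem pow_le {n k : ℕ} (h : n ≤ k) : (n + 1) ^ k ≤ 2 ^ (k * k) := by
  rw [pow_mul]
  refine Nat.pow_le_pow_left ?_ k
  have h1 : n + 1 ≤ 2 ^ n := Nat.lt_two_pow_self
  exact h1.trans (Nat.pow_le_pow_right (by omega) h)

theorem fin_any (M : List (List Bool)) (k N : ℕ) (hN : (M.length + 1) ^ k ≤ N) :
    ((List.range N).any fun c => fin M ((stp M.length)^[k] (ini M c))) = true ↔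
      Reverses (graphOf M) k := by
  rw [List.any_eq_true]
  constructor
  · rintro ⟨c, _, h⟩ β
    -- every code gives a word
    obtain ⟨G', f', h3, h4, h5⟩ := sim k c _ _ _ _ (rep_ini M) (repF_ini M)
    have hc : ∃ c' < (M.length + 1) ^ k, word M.length k c' = word M.length k c :=
      word_surj _ _ _ (word_length _ _ _)
    obtain ⟨c', hc', hw⟩ := hc
    refine (fin_iff M k).2 ⟨c', hc', ?_⟩ β
    -- the same final state up to representation
    obtain ⟨G1, f1, i3, i4, i5⟩ := sim k c' _ _ _ _ (rep_ini M) (repF_ini M)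
    have e := i5 (fun _ => 1)
    rw [hw, h5 (fun _ => 1)] at e
    have e1 : G' = G1 := congrArg Prod.fst e
    have e2 : f' = f1 := by
      have e3 : col (fun _ => 1) f' = col (fun _ => 1) f1 := congrArg Prod.snd e
      funext i
      have e4 := congrFun e3 i
      unfold col at e4
      cases h1 : f' i <;> cases h2 : f1 i <;> simp only [h1, h2] at e4 <;>
        first | rfl | exact absurd e4 (by decide)
    subst e1 e2
    unfold fin at h ⊢
    simp only [List.all_eq_true, List.mem_range, Bool.and_eq_true, decide_eq_true_eq] at h ⊢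
    intro i hi
    have g1 := h3
    refine ⟨?_, fun j hj => ?_⟩
    · have e5 := h4 ⟨i, hi⟩
      have e6 := i4 ⟨i, hi⟩
      change ((stp M.length)^[k] (ini M c)).2.2.getD i false = _ at e5
      change ((stp M.length)^[k] (ini M c')).2.2.getD i false = _ at e6
      rw [e6, ← e5]
      exact (h i hi).1
    · have e5 := h3 ⟨i, hi⟩ ⟨j, hj⟩
      have e6 := i3 ⟨i, hi⟩ ⟨j, hj⟩
      rw [← (h i hi).2 j hj]
      exact Bool.eq_iff_iff.2 (e6.trans e5.symm)
  · intro h
    obtain ⟨c, hc, hf⟩ := (fin_iff M k).1 h
    exact ⟨c, List.mem_range.2 (lt_of_lt_of_le hc hN), hf⟩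

theorem alg_correct (x : List (List Bool) × ℕ) :
    alg (x, List.replicate (2 ^ (x.2 * x.2)) ()) = true ↔ cr (graphOf x.1) ≤ (x.2 : ℕ∞) := by
  rw [cr_le_iff]
  unfold alg
  simp only [List.length_replicate, List.length_range]
  have hmin : min x.2 (2 ^ (x.2 * x.2)) = x.2 := by
    refine min_eq_left ?_
    have h1 : x.2 < 2 ^ x.2 := Nat.lt_two_pow_self
    have h2 : 2 ^ x.2 ≤ 2 ^ (x.2 * x.2) := Nat.pow_le_pow_right (by omega) (Nat.le_mul_self _)
    omega
  rw [hmin]
  by_cases h : x.1.length ≤ x.2
  · rw [if_pos h]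
    exact fin_any x.1 x.2 _ (pow_le h)
  · rw [if_neg h]
    refine ⟨fun h1 => absurd h1 (by decide), fun h1 => ?_⟩
    have := card_le_of_reverses h1
    rw [Fintype.card_fin] at this
    exact absurd this h

/-! ### Running time -/

variable {α : Type} [TEnc α]

theorem p_rng {f : α → ℕ} (hf : UPoly f) : Poly (fun a => List.range (f a)) := hf.range

theorem p_entry' {f : α → List (List Bool)} {i j : α → ℕ} (hf : Poly f) (hi : Poly i)
    (hj : Poly j) : Poly (fun a => entry (f a) (i a) (j a)) :=
  Pool.Agent.H257R2.LJW.entry_poly hf hi hj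

theorem p_rngL {f : α → List (List Bool)} (hf : Poly f) :
    Poly (fun a => List.range (f a).length) := (UPoly.length hf).range

attribute [local fun_prop] p_entry' p_rngL

theorem p_aM {f : α → List (List Bool)} {i j : α → ℕ} (hf : Poly f) (hi : Poly i)
    (hj : Poly j) : Poly (fun a => aM (f a) (i a) (j a)) := by
  unfold aM; fun_prop

attribute [local fun_prop] p_aM

theorem p_ini {M : α → List (List Bool)} {c : α → ℕ} (hM : Poly M) (hc : Poly c) :
    Poly (fun a => ini (M a) (c a)) := by
  unfold ini mk; fun_prop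

theorem p_fin {M : α → List (List Bool)} {s : α → ℕ × List (List Bool) × List Bool}
    (hM : Poly M) (hs : Poly s) : Poly (fun a => fin (M a) (s a)) := by
  unfold fin; fun_prop

theorem p_newA {M : α → List (List Bool)} {A : α → List (List Bool)} {v : α → ℕ}
    (hM : Poly M) (hA : Poly A) (hv : Poly v) :
    Poly (fun a => newA (M a).length (A a) (v a)) := by
  unfold newA mk; fun_prop

theorem p_newF {M : α → List (List Bool)} {A : α → List (List Bool)} {F : α → List Bool}
    {v : α → ℕ} (hM : Poly M) (hA : Poly A) (hF : Poly F) (hv : Poly v) :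
    Poly (fun a => newF (M a).length (A a) (F a) (v a)) := by
  unfold newF; fun_prop

attribute [local fun_prop] p_ini p_fin p_newA p_newF

theorem p_stp {M : α → List (List Bool)} {s : α → ℕ × List (List Bool) × List Bool}
    (hM : Poly M) (hs : Poly s) : Poly (fun a => stp (M a).length (s a)) := by
  unfold stp; fun_prop

theorem sz_mk (n : ℕ) (f : ℕ → ℕ → Bool) : sz (mk n f) ≤ n * (4 * n + 2) + 1 := by
  have := sz_le_length_mul (mk n f) (4 * n + 1) (by
    intro r hr
    unfold mk at hr
    obtain ⟨i, _, rfl⟩ := List.mem_map.1 hr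
    have := sz_listBool_le ((List.range n).map fun j => f i j)
    simpa using this)
  have h2 : (mk n f).length = n := by simp [mk]
  rw [h2] at this
  exact this

theorem sz_F (n : ℕ) (f : ℕ → Bool) : sz ((List.range n).map f) ≤ 4 * n + 1 := by
  have := sz_listBool_le ((List.range n).map f)
  simpa using this

theorem sz_state (M : List (List Bool)) (c k : ℕ) :
    sz ((stp M.length)^[k] (ini M c)) ≤
      2 * sz c + (M.length * (4 * M.length + 2) + 1) + (4 * M.length + 1) + 2 := by
  have key : ∀ k, ((stp M.length)^[k] (ini M c)).1 ≤ c ∧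
      (∃ f, ((stp M.length)^[k] (ini M c)).2.1 = mk M.length f) ∧
      (∃ f, ((stp M.length)^[k] (ini M c)).2.2 = (List.range M.length).map f) := by
    intro k
    induction k with
    | zero => exact ⟨le_rfl, ⟨_, rfl⟩, ⟨_, rfl⟩⟩
    | succ k ih =>
      rw [Function.iterate_succ_apply']
      obtain ⟨h1, ⟨f, h2⟩, ⟨g, h3⟩⟩ := ih
      unfold stp
      refine ⟨(Nat.div_le_self _ _).trans h1, ?_⟩
      split_ifs
      · exact ⟨⟨_, rfl⟩, ⟨_, rfl⟩⟩
      · exact ⟨⟨f, h2⟩, ⟨g, h3⟩⟩
  obtain ⟨h1, ⟨f, h2⟩, ⟨g, h3⟩⟩ := key k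
  have e : (stp M.length)^[k] (ini M c) = (((stp M.length)^[k] (ini M c)).1,
    ((stp M.length)^[k] (ini M c)).2.1, ((stp M.length)^[k] (ini M c)).2.2) := rfl
  rw [e, sz_pair, sz_pair, h2, h3]
  have e1 := sz_nat_mono_le h1
  have e2 := sz_mk M.length f
  have e3 := sz_F M.length g
  omega

theorem size_aux (z : ((List (List Bool) × ℕ) × List Unit) × ℕ) (k : ℕ) :
    sz ((stp z.1.1.1.length)^[k] (ini z.1.1.1 z.2)) ≤
      (Polynomial.C 2 * Polynomial.X + (Polynomial.X * (Polynomial.C 4 * Polynomial.X +
      Polynomial.C 2) + Polynomial.C 1) + (Polynomial.C 4 * Polynomial.X + Polynomial.C 1) +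
      Polynomial.C 2 : Polynomial ℕ).eval (sz z) := by
  refine (sz_state z.1.1.1 z.2 k).trans ?_
  have h1 : z.1.1.1.length ≤ sz z := by
    have h := length_lt_sz z.1.1.1
    obtain ⟨⟨⟨M, k⟩, L⟩, c⟩ := z
    simp only [sz_pair] at h ⊢
    omega
  have h2 : sz z.2 ≤ sz z := by
    obtain ⟨y, c⟩ := z
    simp only [sz_pair]
    omega
  simp only [Polynomial.eval_add, Polynomial.eval_mul, Polynomial.eval_C, Polynomial.eval_X]
  have h3 : z.1.1.1.length * (4 * z.1.1.1.length + 2) ≤ sz z * (4 * sz z + 2) :=
    Nat.mul_le_mul h1 (by omega)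
  omega

theorem p_steps : Poly (fun z : ((List (List Bool) × ℕ) × List Unit) × ℕ =>
    (stp z.1.1.1.length)^[(List.range (min z.1.1.2 z.1.2.length)).length] (ini z.1.1.1 z.2)) := by
  have hl : Poly (fun z : ((List (List Bool) × ℕ) × List Unit) × ℕ =>
      List.range (min z.1.1.2 z.1.2.length)) := by
    refine UPoly.range (UPoly.of_le (n := fun z => z.1.2.length) (by fun_prop)
      (UPoly.length (by fun_prop)) fun z => min_le_right _ _)
  have hs : Poly (fun z : ((List (List Bool) × ℕ) × List Unit) × ℕ => ini z.1.1.1 z.2) := by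
    fun_prop
  have hF : Poly (fun p : (((List (List Bool) × ℕ) × List Unit) × ℕ) ×
      (ℕ × List (List Bool) × List Bool) => stp p.1.1.1.1.length p.2) :=
    p_stp (M := fun p : (((List (List Bool) × ℕ) × List Unit) × ℕ) ×
      (ℕ × List (List Bool) × List Bool) => p.1.1.1.1) (by fun_prop) (by fun_prop)
  have hq : ∀ z : ((List (List Bool) × ℕ) × List Unit) × ℕ, ∀ k ≤
      (List.range (min z.1.1.2 z.1.2.length)).length,
      sz ((stp z.1.1.1.length)^[k] (ini z.1.1.1 z.2)) ≤
      (Polynomial.C 2 * Polynomial.X + (Polynomial.X * (Polynomial.C 4 * Polynomial.X +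
      Polynomial.C 2) + Polynomial.C 1) + (Polynomial.C 4 * Polynomial.X + Polynomial.C 1) +
      Polynomial.C 2 : Polynomial ℕ).eval (sz z) := by
    intro z k _
    exact size_aux z k
  exact NPC.Poly.iterLen (F := fun (z : ((List (List Bool) × ℕ) × List Unit) × ℕ) s =>
    stp z.1.1.1.length s) hl hs hF _ hq

theorem p_alg : Poly alg := by
  unfold alg
  have h1 : Poly (fun z : ((List (List Bool) × ℕ) × List Unit) × ℕ => fin z.1.1.1
      ((stp z.1.1.1.length)^[(List.range (min z.1.1.2 z.1.2.length)).length]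
        (ini z.1.1.1 z.2))) := p_fin (by fun_prop) p_steps
  have h2 : Poly (fun y : (List (List Bool) × ℕ) × List Unit => List.range y.2.length) :=
    UPoly.range (UPoly.length (by fun_prop))
  refine NPC.Poly.ite ?_ (NPC.Poly.any (p := fun (y : (List (List Bool) × ℕ) × List Unit) c =>
    fin y.1.1 ((stp y.1.1.length)^[(List.range (min y.1.2 y.2.length)).length] (ini y.1.1 c)))
    h2 h1) (by fun_prop)
  fun_prop

/-- Deciding whether the colour-reversal number is at most `k` is fixed-parameter tractable. -/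
theorem isFpt : IsFpt (fun x : List (List Bool) × ℕ => x.2)
    (fun x => cr (graphOf x.1) ≤ (x.2 : ℕ∞)) := by
  refine ⟨fun x => alg (x, List.replicate (2 ^ (x.2 * x.2)) ()), ?_, alg_correct⟩
  have hF : UF (fun n => 2 ^ (n * n)) := UF.two_pow (UF.mul UF.id UF.id)
  have h1 : FptTime (fun x : List (List Bool) × ℕ => x.2)
      (fun x => List.replicate (2 ^ (x.2 * x.2)) ()) :=
    UF.pad (κ := fun x : List (List Bool) × ℕ => x.2) hF (by fun_prop)
  exact FptTime.poly_comp p_alg ((FptTime.of_poly Poly.id).pair h1)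

end Pool.Agent.V11225.CR
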